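import Pool.Agent.W186.EH.Spec
import Pool.Agent.W186.SX.Sub

set_option autoImplicit false

/-!
# Interpolation of exponents, numerical consequences
-/

namespace Pool.Agent.W186.EH

open Complex Filter Topology Set
open Pool.Agent.W186.HZ
open Pool.Agent.W186.LH (Ex Ex_of)
open Pool.Agent.W186.SX (FF_line interp mid crit)

lemma Ex_interp {l u a b : ℝ} (hl : 1 / 2 ≤ l) (hlu : l < u) (hu : u ≤ 1) (ha : 0 ≤ a) (hb : 0 ≤ b)
    (hA : Ex l a) (hB : Ex u b) {σ : ℝ} (h1 : l ≤ σ) (h2 : σ ≤ u) :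
    Ex σ ((1 - (σ - l) / (u - l)) * a + (σ - l) / (u - l) * b) := by
  intro ε hε
  obtain ⟨C1, hC1⟩ := hA ε hε
  obtain ⟨C2, hC2⟩ := hB ε hε
  obtain ⟨A, hA, hA'⟩ := FF_line (σ := l) (μ := a + ε) hl (by linarith) (by linarith) hC1
  obtain ⟨B, hB, hB'⟩ := FF_line (σ := u) (μ := b + ε) (by linarith) (by linarith) (by linarith) hC2
  obtain ⟨C3, hC3, hi⟩ := interp (l := l) (u := u) hl hlu (by linarith)
    (by linarith : 0 ≤ 1 + (a + ε)) (by linarith : 0 ≤ 1 + (b + ε)) hA' hB'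
  obtain ⟨θ, hθ⟩ : ∃ θ : ℝ, θ = (σ - l) / (u - l) := ⟨_, rfl⟩
  have hul : 0 < u - l := by linarith
  have hθ0 : 0 ≤ θ := by rw [hθ]; exact div_nonneg (by linarith) hul.le
  have hθ1 : θ ≤ 1 := by rw [hθ, div_le_one hul]; linarith
  obtain ⟨ν, hν⟩ : ∃ ν : ℝ, ν = (1 - θ) * a + θ * b := ⟨_, rfl⟩
  have hν0 : 0 ≤ ν := by
    rw [hν]
    have : 0 ≤ (1 - θ) * a := mul_nonneg (by linarith) ha
    have : 0 ≤ θ * b := mul_nonneg hθ0 hb
    linarith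
  rw [← hθ, ← hν]
  refine ⟨C3 * 2 ^ (1 + (ν + ε)), fun t ht => ?_⟩
  have h3 := hi σ h1 h2 t
  rw [← hθ] at h3
  have e1 : (1 - θ) * (1 + (a + ε)) + θ * (1 + (b + ε)) = 1 + (ν + ε) := by rw [hν]; ring
  rw [e1] at h3
  obtain ⟨s, hs⟩ : ∃ s : ℂ, s = σ + t * I := ⟨_, rfl⟩
  have him : s.im = t := by rw [hs]; simp
  rw [← hs] at h3 ⊢
  have hne : s ≠ 1 := by
    intro h
    rw [h] at him
    simp at him
    rw [← him, abs_zero] at ht
    linarith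
  have htp : 0 < |t| := by linarith
  rw [show H353.FF s = (s - 1) * riemannZeta s from ZU.J_g2b.FF_ne hne, norm_mul] at h3
  have h4 : |t| ≤ ‖s - 1‖ := by
    have := abs_im_le_norm (s - 1)
    simpa [him] using this
  have h5 : (1 + |t|) ^ (1 + (ν + ε)) ≤ (2 * |t|) ^ (1 + (ν + ε)) :=
    Real.rpow_le_rpow (by positivity) (by linarith) (by linarith)
  rw [Real.mul_rpow (by norm_num) htp.le] at h5
  have h6 : |t| ^ (1 + (ν + ε)) = |t| * |t| ^ (ν + ε) := by rw [Real.rpow_add htp, Real.rpow_one]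
  rw [h6] at h5
  have h7 : |t| * ‖riemannZeta s‖ ≤ |t| * (C3 * 2 ^ (1 + (ν + ε)) * |t| ^ (ν + ε)) := by
    calc |t| * ‖riemannZeta s‖ ≤ ‖s - 1‖ * ‖riemannZeta s‖ := mul_le_mul_of_nonneg_right h4 (norm_nonneg _)
      _ ≤ C3 * (1 + |t|) ^ (1 + (ν + ε)) := h3
      _ ≤ C3 * (2 ^ (1 + (ν + ε)) * (|t| * |t| ^ (ν + ε))) := mul_le_mul_of_nonneg_left h5 (by linarith)
      _ = _ := by ring
  exact le_of_mul_le_mul_left h7 htp

lemma Ex_lim {σ μ : ℝ} (h : ∀ η : ℝ, 0 < η → ∃ μ' : ℝ, μ' ≤ μ + η ∧ Ex σ μ') : Ex σ μ := by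
  intro ε hε
  obtain ⟨μ', h1, h2⟩ := h (ε / 2) (by linarith)
  obtain ⟨C, hC⟩ := (h2.mono h1) (ε / 2) (by linarith)
  refine ⟨C, fun t ht => ?_⟩
  have e : μ + ε / 2 + ε / 2 = μ + ε := by ring
  rw [← e]
  exact hC t ht

lemma Ex_one : Ex 1 0 := by
  obtain ⟨p, C, hp0, hp1, hcr⟩ := crit
  refine Ex_lim fun η hη => ?_
  obtain ⟨e, he⟩ : ∃ e : ℝ, e = min (η / 3) (1 / 2) := ⟨_, rfl⟩
  have he0 : 0 < e := by rw [he]; exact lt_min (by linarith) (by norm_num)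
  have he1 : e ≤ η / 3 := by rw [he]; exact min_le_left _ _
  have he2 : e ≤ 1 / 2 := by rw [he]; exact min_le_right _ _
  obtain ⟨C', hC', h⟩ := mid (y := 1 / 2) (r := 1 / 2) hp0 hcr (by norm_num) le_rfl ct_half he0 he2
    (by norm_num) (by linarith)
  refine ⟨(1 - 1 / 2 / (1 / 2 + e)) * (p / 2) + 1 / 2 / (1 / 2 + e) * (2 * e), ?_,
    fun ε hε => ⟨C', fun t ht => ?_⟩⟩
  · have h1 : 1 - 1 / 2 / (1 / 2 + e) = e / (1 / 2 + e) := by field_simp; ring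
    have h2 : e / (1 / 2 + e) ≤ 2 * e := by
      rw [div_le_iff₀ (by linarith)]
      nlinarith
    have h3 : 1 / 2 / (1 / 2 + e) ≤ 1 := by
      rw [div_le_one (by linarith)]; linarith
    have h4 : 0 ≤ e / (1 / 2 + e) := by positivity
    rw [h1]
    nlinarith
  · have h1 := h t ht
    have e1 : (((1 / 2 + 1 / 2 : ℝ)) : ℂ) = ((1 : ℝ) : ℂ) := by norm_num
    rw [e1] at h1
    refine h1.trans ?_
    exact mul_le_mul_of_nonneg_left (Real.rpow_le_rpow_of_exponent_le ht (by linarith)) hC'.le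

lemma ex_of (h : S_EX) : Ex (1 / 2) (1 / 6) ∧ Ex (5 / 7) (1 / 14) := by
  constructor
  · refine Ex_of _ _ (by norm_num) fun ε hε => ?_
    obtain ⟨T0, h1⟩ := h ε hε
    refine ⟨T0, fun t ht => ?_⟩
    have := (h1 t ht).1
    have e : (((1 / 2 : ℝ)) : ℂ) = 1 / 2 := by push_cast; rfl
    rw [e]
    exact this
  · refine Ex_of _ _ (by norm_num) fun ε hε => ?_
    obtain ⟨T0, h1⟩ := h ε hε
    refine ⟨T0, fun t ht => ?_⟩
    have := (h1 t ht).2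
    have e : (((5 / 7 : ℝ)) : ℂ) = 5 / 7 := by push_cast; rfl
    rw [e]
    exact this

/-- the parabola with parameter `27/10` lies above the polygon of van der Corput -/
lemma num (h : S_EX) : ∀ σ : ℝ, 1 / 2 ≤ σ → σ ≤ 1 →
    Ex σ (max ((27 / 10) / 4 - (σ - 1 / 2)) 0 ^ 2 / (27 / 10)) := by
  obtain ⟨h1, h2⟩ := ex_of h
  intro σ s1 s2
  rw [max_eq_left (by linarith)]
  rcases le_total σ (5 / 7) with h3 | h3
  · refine (Ex_interp le_rfl (by norm_num) (by norm_num) (by norm_num) (by norm_num) h1 h2 s1 h3).mono ?_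
    have e : (1 - (σ - 1 / 2) / (5 / 7 - 1 / 2)) * (1 / 6) + (σ - 1 / 2) / (5 / 7 - 1 / 2) * (1 / 14) =
        1 / 6 - 4 / 9 * (σ - 1 / 2) := by ring
    rw [e, le_div_iff₀ (by norm_num)]
    nlinarith [sq_nonneg (σ - 1 / 2 - 3 / 40)]
  · refine (Ex_interp (by norm_num) (by norm_num) le_rfl (by norm_num) le_rfl h2 Ex_one h3 s2).mono ?_
    have e : (1 - (σ - 5 / 7) / (1 - 5 / 7)) * (1 / 14) + (σ - 5 / 7) / (1 - 5 / 7) * 0 = (1 - σ) / 4 := by ring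
    rw [e, le_div_iff₀ (by norm_num)]
    nlinarith [sq_nonneg (σ - 1 / 2 - 27 / 80)]

end Pool.Agent.W186.EH
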