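import Pool.Agent.Helper153.FacC
import Pool.Agent.H442R2.EHI.VdC
import Pool.Agent.H307R2.LU

set_option autoImplicit false

/-!
# Statements: the k-th derivative test of van der Corput and two exponents of zeta
-/

namespace Pool.Agent.W186.EH

open Complex
open Pool.Agent.Helper153.Vdc (ee dd Cond)

/-- the bound of the k-th derivative test (`K = 2 ^ (k - 1)`):
`N λ ^ (1 / (2 K - 2)) + N ^ (1 - 2 / K) λ ^ (- 1 / (2 K - 2))` -/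
noncomputable def VB (k : ℕ) (N lam : ℝ) : ℝ :=
  N * lam ^ (1 / ((2 : ℝ) ^ k - 2)) + N ^ (1 - 4 / (2 : ℝ) ^ k) * lam ^ (-(1 / ((2 : ℝ) ^ k - 2)))

/-- k-th derivative test with explicit exponents -/
def S_KT : Prop := ∀ k : ℕ, 2 ≤ k → ∀ A : ℝ, 1 ≤ A → ∀ ε : ℝ, 0 < ε → ∃ C : ℝ, 1 ≤ C ∧
  ∀ (N M : ℕ) (g : ℕ → ℝ) (lam : ℝ), 1 ≤ N → M ≤ N → 0 < lam → Cond k g M lam A →
    ‖∑ n ∈ Finset.range M, ee (g n)‖ ≤ C * (N : ℝ) ^ ε * VB k N lam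

/-- the sum of `n ^ (-s)` over `1 ≤ n ≤ N` -/
noncomputable def PS (s : ℂ) (N : ℕ) : ℂ := ∑ n ∈ Finset.range N, (((n + 1 : ℕ) : ℂ)) ^ (-s)

/-- dyadic blocks of the zeta sum -/
def S_BK : Prop := ∀ k : ℕ, 2 ≤ k → ∀ σ ε : ℝ, 0 < σ → σ < 1 → 0 < ε → ∃ C : ℝ, 0 < C ∧
  ∀ (t : ℝ) (J : ℕ), 2 ≤ t → 1 ≤ J → (J : ℝ) ≤ t ^ 2 →
    ‖PS ((σ : ℂ) + t * I) (J + J) - PS ((σ : ℂ) + t * I) J‖ ≤
      C * t ^ ε * ((J : ℝ) ^ (-σ) * VB k J (t / (J : ℝ) ^ k))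

/-- long dyadic blocks (first derivative) -/
def S_B1 : Prop := ∀ σ : ℝ, 0 < σ → σ < 1 → ∃ C : ℝ, 0 < C ∧
  ∀ (t : ℝ) (J : ℕ), 2 ≤ t → 1 ≤ J → t ≤ (J : ℝ) →
    ‖PS ((σ : ℂ) + t * I) (J + J) - PS ((σ : ℂ) + t * I) J‖ ≤ C * ((J : ℝ) ^ (1 - σ) / t)

/-- the two exponents -/
def S_EX : Prop := ∀ ε : ℝ, 0 < ε → ∃ T0 : ℝ, ∀ t : ℝ, T0 ≤ t →
  ‖riemannZeta (1 / 2 + t * I)‖ ≤ t ^ (1 / 6 + ε) ∧ ‖riemannZeta (5 / 7 + t * I)‖ ≤ t ^ (1 / 14 + ε)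

end Pool.Agent.W186.EH
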